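import Pool.Agent.MPe9218d.Core

/-!
No identity for `s ≥ 4` and `M > 11 * 2 ^ (s - 3)`: adaptation of `MPe9218d.Core` (which has
`M ≥ 2 ^ (s + 1)`) with sharper bounds for the offsets.
-/

set_option autoImplicit false

namespace Pool.Agent.W2helper49.DC.C2

open Pool.Agent.MPe9218d hiding col_iff level_eq col_list ASet_iff A_len A_one A_two A_three A_four
  A_K1 A_K3 A_K4 kill mem_A_one mem_A_two mem_A_three Shape exists_shape nc_list B_len B_two
  B_three B_four no_level_one notC_8w kill_two kill_three allowed A_3v not_allowed no_identity main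

theorem col_iff {M t e : ℕ} (hM : 22 * 2 ^ t < M) (he : 1 ≤ e) :
    Col M t e ↔ ∃ q x, 1 ≤ q ∧ P t x ∧ e + x = q * M := by
  have hw : 1 ≤ 2 ^ t := Nat.one_le_two_pow
  constructor
  · rintro ⟨i, hi1, hi2, hmod⟩
    have hP : P t (2 ^ (i - 1)) := ⟨i - 1, by omega, rfl⟩
    have hle := P_le hP
    have hpos := P_pos hP
    have hmod2 : e + 2 ^ (i - 1) ≡ 0 [MOD M] := by
      have h1 : e + 2 ^ (i - 1) ≡ a M i + 2 ^ (i - 1) [MOD M] := Nat.ModEq.add_right _ hmod
      have h2 : a M i + 2 ^ (i - 1) = M := by unfold a; omega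
      rw [h2] at h1
      exact h1.trans (by simp [Nat.ModEq])
    have hdvd : M ∣ e + 2 ^ (i - 1) := (Nat.modEq_zero_iff_dvd).mp hmod2
    obtain ⟨q, hq⟩ := hdvd
    refine ⟨q, 2 ^ (i - 1), ?_, hP, by rw [hq]; ring⟩
    rcases Nat.eq_zero_or_pos q with h0 | h0
    · rw [h0, Nat.mul_zero] at hq; omega
    · exact h0
  · rintro ⟨q, x, hq, ⟨i, hi, rfl⟩, h⟩
    refine ⟨i + 1, by omega, by omega, ?_⟩
    have hP : P t (2 ^ i) := ⟨i, hi, rfl⟩
    have hle := P_le hP
    have h1 : e + 2 ^ i ≡ 0 [MOD M] := by rw [h]; simp [Nat.ModEq]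
    have h2 : a M (i + 1) + 2 ^ i = M := by unfold a; simp; omega
    have h3 : e + 2 ^ i ≡ a M (i + 1) + 2 ^ i [MOD M] := by
      rw [h2]; exact h1.trans (by simp [Nat.ModEq])
    exact Nat.ModEq.add_right_cancel' _ h3

theorem level_eq {M w K q T τ : ℕ} (hM : 22 * w < M)
    (h : q * M + T = K * M + τ) (hτ : τ ≤ 4 * w * (q + 1)) (hT : T < M)
    (hT2 : 8 * w * K < T + 24 * w) : q = K ∧ τ = T := by
  rcases lt_trichotomy q K with h1 | h1 | h1
  · exfalso
    obtain ⟨r, rfl⟩ := Nat.exists_eq_add_of_lt h1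
    have e1 : (q + r + 1) * M = q * M + r * M + M := by ring
    have e2 : 0 ≤ r * M := Nat.zero_le _
    omega
  · subst h1; exact ⟨rfl, by omega⟩
  · exfalso
    obtain ⟨r, rfl⟩ := Nat.exists_eq_add_of_lt h1
    have e1 : (K + r + 1) * M = K * M + r * M + M := by ring
    have e2 : 22 * w * r ≤ r * M := by
      rw [mul_comm r M]; exact Nat.mul_le_mul_right _ hM.le
    have e3 : 4 * w * (K + r + 1 + 1) = 4 * (w * K) + 4 * (w * r) + 8 * w := by ring
    have e4 : 22 * w * r = 22 * (w * r) := by ring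
    have e5 : 8 * w * K = 8 * (w * K) := by ring
    rcases Nat.lt_or_ge K 3 with hK | hK
    · have : w * K ≤ w * 2 := Nat.mul_le_mul_left _ (by omega)
      omega
    · have : w * 3 ≤ w * K := Nat.mul_le_mul_left _ hK
      omega

/-- sum of a list of coloured parts -/
theorem col_list {M t : ℕ} (hM : 22 * 2 ^ t < M) :
    ∀ l : List ℕ, (∀ e ∈ l, 1 ≤ e ∧ Col M t e) →
      ∃ Q X, l.sum + X = Q * M ∧ l.length ≤ Q ∧ X ≤ 8 * 2 ^ t * l.length ∧ l.length ≤ X := by
  intro l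
  induction l with
  | nil => intro _; exact ⟨0, 0, by simp, by simp, by simp, by simp⟩
  | cons p l ih =>
    intro h
    obtain ⟨Q, X, h1, h2, h3, h4⟩ := ih (fun e he => h e (List.mem_cons_of_mem _ he))
    obtain ⟨hp1, hp2⟩ := h p List.mem_cons_self
    obtain ⟨q, x, hq, hx, hpx⟩ := (col_iff hM hp1).mp hp2
    refine ⟨q + Q, x + X, ?_, ?_, ?_, ?_⟩
    · simp only [List.sum_cons]
      calc p + l.sum + (x + X) = (p + x) + (l.sum + X) := by ring
        _ = (q + Q) * M := by rw [hpx, h1]; ring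
    · simp only [List.length_cons]; omega
    · have := P_le hx
      simp only [List.length_cons]
      calc x + X ≤ 8 * 2 ^ t + 8 * 2 ^ t * l.length := by omega
        _ = 8 * 2 ^ t * (l.length + 1) := by ring
    · have := P_pos hx
      simp only [List.length_cons]; omega

theorem ASet_iff {M t n : ℕ} {l : List ℕ} :
    l ∈ ASet (a M) (t + 4) M n ↔
      l.Pairwise (· > ·) ∧ (∀ e ∈ l, 1 ≤ e ∧ Col M t e) ∧ l.sum = n := by
  constructor
  · rintro ⟨⟨h1, h2, h3⟩, h4, h5⟩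
    refine ⟨?_, fun e he => ⟨h2 e he, h5 e he⟩, h3⟩
    have h6 : l.Pairwise (· ≠ ·) := h4
    exact (h1.and h6).imp (fun {x y} h => lt_of_le_of_ne h.1 (Ne.symm h.2))
  · rintro ⟨h1, h2, h3⟩
    refine ⟨⟨h1.imp (fun {x y} h => le_of_lt h), fun e he => (h2 e he).1, h3⟩, ?_,
      fun e he => (h2 e he).2⟩
    exact h1.imp (fun {x y} h => (ne_of_gt h))

/-- a decreasing list of coloured parts below `M` -/
theorem low_list {M t : ℕ} (hM : 22 * 2 ^ t < M) :
    ∀ (l : List ℕ) (y : ℕ), P t y → ((M - y) :: l).Pairwise (· > ·) →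
      (∀ e ∈ l, 1 ≤ e ∧ Col M t e) →
      ∃ X, l.sum + X = l.length * M ∧ y + X ≤ 16 * 2 ^ t - y ∧
        (l.length = 1 → X ≤ 8 * 2 ^ t) ∧ (l.length = 1 → 2 * y ≤ X) := by
  intro l
  induction l with
  | nil =>
    intro y hy _ _
    have := P_le hy
    exact ⟨0, by simp, by omega, by simp, by simp⟩
  | cons p l ih =>
    intro y hy hp h
    have hy' := P_le hy
    have hw : 1 ≤ 2 ^ t := Nat.one_le_two_pow
    rw [List.pairwise_cons] at hp
    have hlt : p < M - y := hp.1 p (by simp)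
    obtain ⟨h1, h2⟩ := h p (by simp)
    obtain ⟨q, x, hq, hx, hpx⟩ := (col_iff hM h1).mp h2
    have hx' := P_le hx
    have hq1 : q = 1 := by
      rcases Nat.lt_or_ge q 2 with h3 | h3
      · omega
      · exfalso
        have : 2 * M ≤ q * M := Nat.mul_le_mul_right _ h3
        omega
    subst hq1
    have e1 : p = M - x := by omega
    obtain ⟨X, g1, g2, g3, g4⟩ := ih x hx (by rw [← e1]; exact hp.2)
      (fun e he => h e (List.mem_cons_of_mem _ he))
    have htri := P_tri hy hx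
    have h2y : 2 * y ≤ x := by omega
    refine ⟨x + X, ?_, ?_, ?_, ?_⟩
    · simp only [List.sum_cons, List.length_cons]
      have : (l.length + 1) * M = l.length * M + M := by ring
      omega
    · omega
    · intro hl
      simp only [List.length_cons] at hl
      have hl0 : l = [] := List.length_eq_zero_iff.mp (by omega)
      subst hl0
      simp at g1
      omega
    · intro hl
      omega

/-- the sharper bound for distinct coloured parts -/
theorem col_list2 {M t : ℕ} (hM : 22 * 2 ^ t < M) :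
    ∀ l : List ℕ, l.Pairwise (· > ·) → (∀ e ∈ l, 1 ≤ e ∧ Col M t e) →
      ∃ Q X, l.sum + X = Q * M ∧ l.length ≤ Q ∧ X ≤ 4 * 2 ^ t * (Q + 1) ∧ l.length ≤ X := by
  intro l
  induction l with
  | nil => intro _ _; exact ⟨0, 0, by simp, by simp, by simp, by simp⟩
  | cons p l ih =>
    intro hp h
    have hw : 1 ≤ 2 ^ t := Nat.one_le_two_pow
    have hp' := hp
    rw [List.pairwise_cons] at hp
    obtain ⟨hp1, hp2⟩ := h p List.mem_cons_self
    obtain ⟨q, x, hq, hx, hpx⟩ := (col_iff hM hp1).mp hp2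
    have hx' := P_le hx
    have hx0 := P_pos hx
    have hl := fun e he => h e (List.mem_cons_of_mem _ he)
    rcases Nat.lt_or_ge q 2 with hq2 | hq2
    · have hq1 : q = 1 := by omega
      subst hq1
      have e1 : p = M - x := by omega
      obtain ⟨X, g1, g2, g3, g4⟩ := low_list hM l x hx (by rw [← e1]; exact hp') hl
      obtain ⟨Q0, X0, f1, f2, f3, f4⟩ := ih hp.2 hl
      refine ⟨l.length + 1, x + X, ?_, by simp, ?_, ?_⟩
      · simp only [List.sum_cons]
        have : (l.length + 1) * M = l.length * M + M := by ring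
        omega
      · rcases Nat.lt_or_ge l.length 2 with h3 | h3
        · rcases Nat.eq_zero_or_pos l.length with h4 | h4
          · have hl0 : l = [] := List.length_eq_zero_iff.mp h4
            subst hl0
            simp at g1
            simp
            omega
          · have h5 : l.length = 1 := by omega
            have g3' := g3 h5
            have g4' := g4 h5
            rw [h5]
            omega
        · have : 4 * 2 ^ t * 4 ≤ 4 * 2 ^ t * (l.length + 1 + 1) :=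
            Nat.mul_le_mul_left _ (by omega)
          omega
      · -- length bound: every offset is at least 1
        have key : ∀ l : List ℕ, (∀ e ∈ l, 1 ≤ e ∧ Col M t e) → (∀ e ∈ l, e < M) →
            l.sum + l.length ≤ l.length * M := by
          intro l
          induction l with
          | nil => intro _ _; simp
          | cons r l ih2 =>
            intro k1 k2
            have k3 := ih2 (fun e he => k1 e (List.mem_cons_of_mem _ he))
              (fun e he => k2 e (List.mem_cons_of_mem _ he))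
            have k4 := k2 r (by simp)
            simp only [List.sum_cons, List.length_cons]
            have : (l.length + 1) * M = l.length * M + M := by ring
            omega
        have k5 := key l hl (fun e he => by
          have : e < p := hp.1 e he
          omega)
        simp only [List.length_cons]
        omega
    · obtain ⟨Q, X, h1, h2, h3, h4⟩ := ih hp.2 hl
      refine ⟨q + Q, x + X, ?_, ?_, ?_, ?_⟩
      · simp only [List.sum_cons]
        calc p + l.sum + (x + X) = (p + x) + (l.sum + X) := by ring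
          _ = (q + Q) * M := by rw [hpx, h1]; ring
      · simp only [List.length_cons]; omega
      · have h5 : 4 * 2 ^ t * 2 ≤ 4 * 2 ^ t * q := Nat.mul_le_mul_left _ hq2
        have e2 : 4 * 2 ^ t * (q + Q + 1) = 4 * 2 ^ t * q + 4 * 2 ^ t * (Q + 1) := by ring
        omega
      · simp only [List.length_cons]; omega

/-- shape of the lists at level at most 4 -/
theorem A_len {M t K T : ℕ} (hM : 22 * 2 ^ t < M) {l : List ℕ} {n : ℕ}
    (hl : l ∈ ASet (a M) (t + 4) M n) (hn : n + T = K * M) (hT : T < M)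
    (hT2 : 8 * 2 ^ t * K < T + 24 * 2 ^ t) : l.length ≤ K := by
  rw [ASet_iff] at hl
  obtain ⟨h1, h2, h3⟩ := hl
  obtain ⟨Q, X, hQ, hlen, hX, _⟩ := col_list2 hM l h1 h2
  have := level_eq (K := K) (q := Q) (T := T) (τ := X) hM (by rw [← hn, ← h3, ← hQ]; ring)
    hX hT hT2
  omega


theorem bd_two {M t k1 k2 x1 x2 p q : ℕ} (hM : 22 * 2 ^ t < M) (hx1 : P t x1) (hx2 : P t x2)
    (hk1 : 1 ≤ k1) (hk2 : 1 ≤ k2) (hp : p + x1 = k1 * M) (hq : q + x2 = k2 * M) (h : q < p) :
    x1 + x2 ≤ 4 * 2 ^ t * (k1 + k2 + 1) := by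
  have hx1' := P_le hx1
  have hx2' := P_le hx2
  rcases Nat.lt_or_ge (k1 + k2) 3 with h3 | h3
  · have e1 : k1 = 1 := by omega
    have e2 : k2 = 1 := by omega
    subst e1 e2
    have := P_tri hx1 hx2
    omega
  · have : 4 * 2 ^ t * 4 ≤ 4 * 2 ^ t * (k1 + k2 + 1) := Nat.mul_le_mul_left _ (by omega)
    omega

theorem bd_three {M t k1 k2 k3 x1 x2 x3 p q r : ℕ} (hM : 22 * 2 ^ t < M) (hx1 : P t x1)
    (hx2 : P t x2) (hx3 : P t x3)
    (hk1 : 1 ≤ k1) (hk2 : 1 ≤ k2) (hk3 : 1 ≤ k3) (hp : p + x1 = k1 * M) (hq : q + x2 = k2 * M)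
    (hr : r + x3 = k3 * M) (h : q < p) (h' : r < q) :
    x1 + x2 + x3 ≤ 4 * 2 ^ t * (k1 + k2 + k3 + 1) := by
  have hx1' := P_le hx1
  have hx2' := P_le hx2
  have hx3' := P_le hx3
  have hM0 : 0 < M := by omega
  have hk12 : k2 ≤ k1 := by
    by_contra hc
    have : (k1 + 1) * M ≤ k2 * M := Nat.mul_le_mul_right _ (by omega)
    have : (k1 + 1) * M = k1 * M + M := by ring
    omega
  have hk23 : k3 ≤ k2 := by
    by_contra hc
    have : (k2 + 1) * M ≤ k3 * M := Nat.mul_le_mul_right _ (by omega)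
    have : (k2 + 1) * M = k2 * M + M := by ring
    omega
  rcases Nat.lt_or_ge (k1 + k2 + k3) 5 with h3 | h3
  · have e2 : k2 = 1 := by omega
    have e3 : k3 = 1 := by omega
    subst e2 e3
    have t1 := P_tri hx2 hx3
    have hx23 : x2 + x3 ≤ 12 * 2 ^ t := by omega
    rcases Nat.lt_or_ge k1 2 with h4 | h4
    · have e1 : k1 = 1 := by omega
      subst e1
      have t2 := P_tri hx1 hx2
      omega
    · have : 4 * 2 ^ t * 5 ≤ 4 * 2 ^ t * (k1 + 1 + 1 + 1) := Nat.mul_le_mul_left _ (by omega)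
      omega
  · have : 4 * 2 ^ t * 6 ≤ 4 * 2 ^ t * (k1 + k2 + k3 + 1) := Nat.mul_le_mul_left _ (by omega)
    omega

theorem bd_four {M t k1 k2 k3 k4 x1 x2 x3 x4 p q r s : ℕ} (hM : 22 * 2 ^ t < M) (hx1 : P t x1)
    (hx2 : P t x2) (hx3 : P t x3) (hx4 : P t x4)
    (hk1 : 1 ≤ k1) (hk2 : 1 ≤ k2) (hk3 : 1 ≤ k3) (hk4 : 1 ≤ k4) (hp : p + x1 = k1 * M)
    (hq : q + x2 = k2 * M) (hr : r + x3 = k3 * M) (hs : s + x4 = k4 * M) (h : q < p) (h' : r < q)
    (h'' : s < r) : x1 + x2 + x3 + x4 ≤ 4 * 2 ^ t * (k1 + k2 + k3 + k4 + 1) := by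
  have h3 := bd_three hM hx2 hx3 hx4 hk2 hk3 hk4 hq hr hs h' h''
  have hx1' := P_le hx1
  have hx4' := P_le hx4
  rcases Nat.lt_or_ge k1 2 with h4 | h4
  · have e1 : k1 = 1 := by omega
    subst e1
    have e2 : k2 = 1 := by
      by_contra hc
      have : 2 * M ≤ k2 * M := Nat.mul_le_mul_right _ (by omega)
      have := P_le hx2
      omega
    subst e2
    have e3 : k3 = 1 := by
      by_contra hc
      have : 2 * M ≤ k3 * M := Nat.mul_le_mul_right _ (by omega)
      have := P_le hx3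
      omega
    subst e3
    have e4 : k4 = 1 := by
      by_contra hc
      have : 2 * M ≤ k4 * M := Nat.mul_le_mul_right _ (by omega)
      omega
    subst e4
    have t1 := P_tri hx1 hx2
    have t2 := P_tri hx2 hx3
    have t3 := P_tri hx3 hx4
    omega
  · have h5 : 4 * 2 ^ t * 2 ≤ 4 * 2 ^ t * k1 := Nat.mul_le_mul_left _ h4
    have e2 : 4 * 2 ^ t * (k1 + k2 + k3 + k4 + 1) =
      4 * 2 ^ t * k1 + 4 * 2 ^ t * (k2 + k3 + k4 + 1) := by ring
    omega

theorem A_one {M t K T n p : ℕ} (hM : 22 * 2 ^ t < M)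
    (hl : [p] ∈ ASet (a M) (t + 4) M n) (hn : n + T = K * M) (hT : T < M)
    (hT2 : 8 * 2 ^ t * K < T + 24 * 2 ^ t) : P t T ∧ p + T = K * M := by
  rw [ASet_iff] at hl
  obtain ⟨_, h2, h3⟩ := hl
  have hp := h2 p (by simp)
  obtain ⟨q, x, hq, hx, hpx⟩ := (col_iff hM hp.1).mp hp.2
  simp only [List.sum_cons, List.sum_nil, add_zero] at h3
  subst h3
  have hx' := P_le hx
  obtain ⟨h4, h5⟩ := level_eq (K := K) (q := q) (T := T) (τ := x) hM (by rw [← hn, ← hpx]; ring)
    (le_trans hx' (by nlinarith)) hT hT2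
  subst h5
  exact ⟨hx, hn⟩

theorem A_two {M t K T n p q : ℕ} (hM : 22 * 2 ^ t < M)
    (hl : [p, q] ∈ ASet (a M) (t + 4) M n) (hn : n + T = K * M) (hT : T < M)
    (hT2 : 8 * 2 ^ t * K < T + 24 * 2 ^ t) :
    ∃ k1 k2 x1 x2, k1 + k2 = K ∧ x1 + x2 = T ∧ P t x1 ∧ P t x2 ∧ 1 ≤ k1 ∧ 1 ≤ k2 ∧
      p + x1 = k1 * M ∧ q + x2 = k2 * M ∧ q < p := by
  rw [ASet_iff] at hl
  obtain ⟨h1, h2, h3⟩ := hl
  have hp := h2 p (by simp)
  have hq := h2 q (by simp)
  obtain ⟨k1, x1, hk1, hx1, hpx1⟩ := (col_iff hM hp.1).mp hp.2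
  obtain ⟨k2, x2, hk2, hx2, hpx2⟩ := (col_iff hM hq.1).mp hq.2
  simp only [List.sum_cons, List.sum_nil, add_zero] at h3
  subst h3
  have hx1' := P_le hx1
  have hx2' := P_le hx2
  obtain ⟨h4, h5⟩ := level_eq (K := K) (q := k1 + k2) (T := T) (τ := x1 + x2) hM
    (by rw [← hn, add_mul, ← hpx1, ← hpx2]; ring)
    (bd_two hM hx1 hx2 hk1 hk2 hpx1 hpx2 (by simpa using h1)) hT hT2
  refine ⟨k1, k2, x1, x2, h4, h5, hx1, hx2, hk1, hk2, hpx1, hpx2, ?_⟩
  simpa using h1

theorem A_three {M t K T n p q r : ℕ} (hM : 22 * 2 ^ t < M)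
    (hl : [p, q, r] ∈ ASet (a M) (t + 4) M n) (hn : n + T = K * M) (hT : T < M)
    (hT2 : 8 * 2 ^ t * K < T + 24 * 2 ^ t) :
    ∃ k1 k2 k3 x1 x2 x3, k1 + k2 + k3 = K ∧ x1 + x2 + x3 = T ∧ P t x1 ∧ P t x2 ∧ P t x3 ∧
      1 ≤ k1 ∧ 1 ≤ k2 ∧ 1 ≤ k3 ∧
      p + x1 = k1 * M ∧ q + x2 = k2 * M ∧ r + x3 = k3 * M ∧ q < p ∧ r < q := by
  rw [ASet_iff] at hl
  obtain ⟨h1, h2, h3⟩ := hl
  have hp := h2 p (by simp)
  have hq := h2 q (by simp)
  have hr := h2 r (by simp)
  obtain ⟨k1, x1, hk1, hx1, hpx1⟩ := (col_iff hM hp.1).mp hp.2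
  obtain ⟨k2, x2, hk2, hx2, hpx2⟩ := (col_iff hM hq.1).mp hq.2
  obtain ⟨k3, x3, hk3, hx3, hpx3⟩ := (col_iff hM hr.1).mp hr.2
  simp only [List.sum_cons, List.sum_nil, add_zero] at h3
  subst h3
  have hx1' := P_le hx1
  have hx2' := P_le hx2
  have hx3' := P_le hx3
  obtain ⟨h4, h5⟩ := level_eq (K := K) (q := k1 + k2 + k3) (T := T) (τ := x1 + x2 + x3) hM
    (by rw [← hn, add_mul, add_mul, ← hpx1, ← hpx2, ← hpx3]; ring)
    (bd_three hM hx1 hx2 hx3 hk1 hk2 hk3 hpx1 hpx2 hpx3 (by simp at h1; omega)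
      (by simp at h1; omega)) hT hT2
  refine ⟨k1, k2, k3, x1, x2, x3, h4, h5, hx1, hx2, hx3, hk1, hk2, hk3, hpx1, hpx2, hpx3, ?_, ?_⟩
  · simp at h1; omega
  · simp at h1; omega

theorem A_four {M t K T n p q r s : ℕ} (hM : 22 * 2 ^ t < M)
    (hl : [p, q, r, s] ∈ ASet (a M) (t + 4) M n) (hn : n + T = K * M) (hT : T < M)
    (hT2 : 8 * 2 ^ t * K < T + 24 * 2 ^ t) :
    ∃ k1 k2 k3 k4 x1 x2 x3 x4, k1 + k2 + k3 + k4 = K ∧ x1 + x2 + x3 + x4 = T ∧
      P t x1 ∧ P t x2 ∧ P t x3 ∧ P t x4 ∧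
      1 ≤ k1 ∧ 1 ≤ k2 ∧ 1 ≤ k3 ∧ 1 ≤ k4 ∧
      p + x1 = k1 * M ∧ q + x2 = k2 * M ∧ r + x3 = k3 * M ∧ s + x4 = k4 * M ∧
      q < p ∧ r < q ∧ s < r := by
  rw [ASet_iff] at hl
  obtain ⟨h1, h2, h3⟩ := hl
  have hp := h2 p (by simp)
  have hq := h2 q (by simp)
  have hr := h2 r (by simp)
  have hs := h2 s (by simp)
  obtain ⟨k1, x1, hk1, hx1, hpx1⟩ := (col_iff hM hp.1).mp hp.2
  obtain ⟨k2, x2, hk2, hx2, hpx2⟩ := (col_iff hM hq.1).mp hq.2
  obtain ⟨k3, x3, hk3, hx3, hpx3⟩ := (col_iff hM hr.1).mp hr.2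
  obtain ⟨k4, x4, hk4, hx4, hpx4⟩ := (col_iff hM hs.1).mp hs.2
  simp only [List.sum_cons, List.sum_nil, add_zero] at h3
  subst h3
  have hx1' := P_le hx1
  have hx2' := P_le hx2
  have hx3' := P_le hx3
  have hx4' := P_le hx4
  obtain ⟨h4, h5⟩ := level_eq (K := K) (q := k1 + k2 + k3 + k4) (T := T) (τ := x1 + x2 + x3 + x4) hM
    (by rw [← hn, add_mul, add_mul, add_mul, ← hpx1, ← hpx2, ← hpx3, ← hpx4]; ring)
    (bd_four hM hx1 hx2 hx3 hx4 hk1 hk2 hk3 hk4 hpx1 hpx2 hpx3 hpx4 (by simp at h1; omega)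
      (by simp at h1; omega) (by simp at h1; omega)) hT hT2
  refine ⟨k1, k2, k3, k4, x1, x2, x3, x4, h4, h5, hx1, hx2, hx3, hx4, hk1, hk2, hk3, hk4,
    hpx1, hpx2, hpx3, hpx4, ?_, ?_, ?_⟩
  · simp at h1; omega
  · simp at h1; omega
  · simp at h1; omega

/-- `A(2M - x - y) ≤ 1` -/
theorem A_K1 {M t n x y : ℕ} (hM : 22 * 2 ^ t < M) (hx : P t x) (hy : P t y) (hxy : x < y)
    (hn : n + (x + y) = 2 * M) : A (a M) (t + 4) M n ≤ 1 := by
  have hw : 1 ≤ 2 ^ t := Nat.one_le_two_pow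
  have hx' := P_le hx
  have hy' := P_le hy
  have hx0 := P_pos hx
  have key : ∀ l ∈ ASet (a M) (t + 4) M n, l = [M - x, M - y] := by
    intro l hl
    have hlen := A_len (K := 2) (T := x + y) hM hl hn (by omega) (by omega)
    rcases l with _ | ⟨p, _ | ⟨q, _ | ⟨r, l⟩⟩⟩
    · exfalso
      rw [ASet_iff] at hl
      have := hl.2.2
      simp at this
      omega
    · exfalso
      obtain ⟨h1, h2⟩ := A_one (K := 2) (T := x + y) hM hl hn (by omega) (by omega)
      have h3 := P_tri h1 hy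
      have h4 := P_tri hx hy
      omega
    · obtain ⟨k1, k2, x1, x2, h1, h2, h3, h4, h5, h6, h7, h8, h9⟩ :=
        A_two (K := 2) (T := x + y) hM hl hn (by omega) (by omega)
      have hk1 : k1 = 1 := by omega
      have hk2 : k2 = 1 := by omega
      subst hk1 hk2
      have h10 := P_tri h4 hy
      have h11 := P_pos h3
      have e1 : x2 = y := by omega
      have e2 : x1 = x := by omega
      subst e1 e2
      have e3 : p = M - x1 := by omega
      have e4 : q = M - x2 := by omega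
      rw [e3, e4]
    · exfalso
      simp only [List.length_cons] at hlen
      omega
  unfold A
  rw [Set.ncard_le_one (finite_ASet _ _ _ _)]
  intro l1 h1 l2 h2
  rw [key l1 h1, key l2 h2]

/-- `A(3M - (8w + x)) ≤ 1` for `x < 8w` not a power of two -/
theorem A_K3 {M t n x : ℕ} (hM : 22 * 2 ^ t < M) (hx : ¬ P t x) (hx8 : x < 8 * 2 ^ t)
    (hx0 : 1 ≤ x)
    (hn : n + (8 * 2 ^ t + x) = 3 * M) : A (a M) (t + 4) M n ≤ 1 := by
  have hw : 1 ≤ 2 ^ t := Nat.one_le_two_pow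
  have key : ∀ l ∈ ASet (a M) (t + 4) M n, ∃ y z, P t y ∧ P t z ∧ y < z ∧ y + z = x ∧
      l = [M - y, M - z, M - 8 * 2 ^ t] := by
    intro l hl
    have hlen := A_len (K := 3) (T := 8 * 2 ^ t + x) hM hl hn (by omega) (by omega)
    rcases l with _ | ⟨p, _ | ⟨q, _ | ⟨r, _ | ⟨s, l⟩⟩⟩⟩
    · exfalso
      rw [ASet_iff] at hl
      have := hl.2.2
      simp at this
      omega
    · exfalso
      obtain ⟨h1, h2⟩ := A_one (K := 3) (T := 8 * 2 ^ t + x) hM hl hn (by omega) (by omega)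
      have h3 := P_le h1
      omega
    · exfalso
      obtain ⟨k1, k2, x1, x2, h1, h2, h3, h4, h5, h6, h7, h8, h9⟩ :=
        A_two (K := 3) (T := 8 * 2 ^ t + x) hM hl hn (by omega) (by omega)
      rcases P_cases h3 with c1 | c1 | c1 | c1 | c1
      · have : x2 = x := by omega
        exact hx (this ▸ h4)
      all_goals
        rcases P_cases h4 with c2 | c2 | c2 | c2 | c2
        · have : x1 = x := by omega
          exact hx (this ▸ h3)
        all_goals omega
    · obtain ⟨k1, k2, k3, x1, x2, x3, h1, h2, h3, h4, h5, h6, h7, h8, h9, h10, h11, h12, h13⟩ :=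
        A_three (K := 3) (T := 8 * 2 ^ t + x) hM hl hn (by omega) (by omega)
      have hk1 : k1 = 1 := by omega
      have hk2 : k2 = 1 := by omega
      have hk3 : k3 = 1 := by omega
      subst hk1 hk2 hk3
      have h14 := P_tri h3 h4
      have h15 := P_tri h4 h5
      have h16 := P_tri h5 (P_8w t)
      have h17 := P_le h5
      have e1 : x3 = 8 * 2 ^ t := by omega
      refine ⟨x1, x2, h3, h4, by omega, by omega, ?_⟩
      have e2 : p = M - x1 := by omega
      have e3 : q = M - x2 := by omega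
      have e4 : r = M - 8 * 2 ^ t := by omega
      rw [e2, e3, e4]
    · exfalso
      simp only [List.length_cons] at hlen
      omega
  unfold A
  rw [Set.ncard_le_one (finite_ASet _ _ _ _)]
  intro l1 h1 l2 h2
  obtain ⟨y, z, hy, hz, hyz, hs, e⟩ := key l1 h1
  obtain ⟨y', z', hy', hz', hyz', hs', e'⟩ := key l2 h2
  have h3 := P_tri hz hz'
  have h4 := P_pos hy
  have h5 := P_pos hy'
  have e1 : z = z' := by omega
  have e2 : y = y' := by omega
  rw [e, e', e1, e2]

/-- `A(4M - T) ≤ 1` for `T > 16w`, `T = 22 w - c` with `c ≤ 4w` -/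
theorem A_K4 {M t n T : ℕ} (hM : 22 * 2 ^ t < M) (hT16 : 16 * 2 ^ t < T) (hT22 : T < 22 * 2 ^ t)
    (hn : n + T = 4 * M) : A (a M) (t + 4) M n ≤ 1 := by
  have hw : 1 ≤ 2 ^ t := Nat.one_le_two_pow
  have key : ∀ l ∈ ASet (a M) (t + 4) M n,
      l = [2 * M - 8 * 2 ^ t, M - (T - 16 * 2 ^ t), M - 8 * 2 ^ t] := by
    intro l hl
    have hlen := A_len (K := 4) (T := T) hM hl hn (by omega) (by omega)
    rcases l with _ | ⟨p, _ | ⟨q, _ | ⟨r, _ | ⟨s, _ | ⟨s', l⟩⟩⟩⟩⟩
    · exfalso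
      rw [ASet_iff] at hl
      have := hl.2.2
      simp at this
      omega
    · exfalso
      obtain ⟨h1, h2⟩ := A_one (K := 4) (T := T) hM hl hn (by omega) (by omega)
      have h3 := P_le h1
      omega
    · exfalso
      obtain ⟨k1, k2, x1, x2, h1, h2, h3, h4, h5, h6, h7, h8, h9⟩ :=
        A_two (K := 4) (T := T) hM hl hn (by omega) (by omega)
      have h10 := P_le h3
      have h11 := P_le h4
      omega
    · obtain ⟨k1, k2, k3, x1, x2, x3, h1, h2, h3, h4, h5, h6, h7, h8, h9, h10, h11, h12, h13⟩ :=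
        A_three (K := 4) (T := T) hM hl hn (by omega) (by omega)
      have h14 := P_le h3
      have h15 := P_le h4
      have h16 := P_le h5
      have hk : (k1 = 2 ∧ k2 = 1 ∧ k3 = 1) ∨ (k1 = 1 ∧ k2 = 2 ∧ k3 = 1) ∨
          (k1 = 1 ∧ k2 = 1 ∧ k3 = 2) := by omega
      rcases hk with ⟨hk1, hk2, hk3⟩ | ⟨hk1, hk2, hk3⟩ | ⟨hk1, hk2, hk3⟩
      · subst hk1 hk2 hk3
        have h17 := P_tri h4 h5
        have h18 := P_tri h3 (P_8w t)
        have h19 := P_tri h5 (P_8w t)
        have h20 := P_tri h4 (P_4w t)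
        have h21 := P_tri h3 (P_4w t)
        have e1 : x1 = 8 * 2 ^ t := by omega
        have e2 : x3 = 8 * 2 ^ t := by omega
        have e3 : p = 2 * M - 8 * 2 ^ t := by omega
        have e4 : q = M - (T - 16 * 2 ^ t) := by omega
        have e5 : r = M - 8 * 2 ^ t := by omega
        rw [e3, e4, e5]
      · exfalso
        subst hk1 hk2 hk3
        omega
      · exfalso
        subst hk1 hk2 hk3
        omega
    · exfalso
      obtain ⟨k1, k2, k3, k4, x1, x2, x3, x4, h1, h2, h3, h4, h5, h6, h7, h8, h9, h10, h11, h12,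
        h13, h14, h15, h16, h17⟩ := A_four (K := 4) (T := T) hM hl hn (by omega) (by omega)
      have hk1 : k1 = 1 := by omega
      have hk2 : k2 = 1 := by omega
      have hk3 : k3 = 1 := by omega
      have hk4 : k4 = 1 := by omega
      subst hk1 hk2 hk3 hk4
      have g1 := P_tri h3 h4
      have g2 := P_tri h4 h5
      have g3 := P_tri h5 h6
      have g4 := P_le h6
      omega
    · exfalso
      simp only [List.length_cons] at hlen
      omega
  unfold A
  rw [Set.ncard_le_one (finite_ASet _ _ _ _)]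
  intro l1 h1 l2 h2
  rw [key l1 h1, key l2 h2]


/-! ### The difference side -/

theorem step_lt {M e e' : ℕ} {b : ℕ → ℕ} (hM : 1 ≤ M) (hb : ∀ j, 1 ≤ j → j ≤ M → 1 ≤ b j)
    (h : Step b M e e') : e' < e := by
  by_cases h0 : e % M = 0
  · have h1 := h M hM le_rfl (by rw [Nat.ModEq, h0, Nat.mod_self])
    have h2 := hb M hM le_rfl
    omega
  · have h1 := h (e % M) (Nat.one_le_iff_ne_zero.mpr h0) (Nat.mod_lt _ hM).le
      (by rw [Nat.ModEq, Nat.mod_mod])
    have h2 := hb (e % M) (Nat.one_le_iff_ne_zero.mpr h0) (Nat.mod_lt _ hM).le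
    omega

theorem step_mono {M e e' f f' : ℕ} {b : ℕ → ℕ} (h : Step b M e e') (hef : f ≡ e [MOD M])
    (hd : e + f' ≤ f + e') : Step b M f f' := by
  intro j h1 h2 h3
  have := h j h1 h2 (hef.symm.trans h3)
  omega

theorem mem_BSet_one {b : ℕ → ℕ} {M n : ℕ} {S : Set ℕ} (hn : 1 ≤ n) (hS : n ∉ S) :
    [n] ∈ BSet b M S n := by
  refine ⟨⟨by simp, by simpa using hn, by simp⟩, by simpa using hS, by simp⟩

theorem mem_BSet_two {b : ℕ → ℕ} {M n e e' : ℕ} {S : Set ℕ} (he' : 1 ≤ e') (hle : e' ≤ e)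
    (h1 : e ∉ S) (h2 : e' ∉ S) (hstep : Step b M e e') (hn : e + e' = n) :
    [e, e'] ∈ BSet b M S n := by
  refine ⟨⟨by simpa using hle, ?_, by simpa using hn⟩, ?_, by simpa using hstep⟩
  · intro x hx
    simp only [List.mem_cons, List.not_mem_nil, or_false] at hx
    rcases hx with rfl | rfl <;> omega
  · intro x hx
    simp only [List.mem_cons, List.not_mem_nil, or_false] at hx
    rcases hx with rfl | rfl <;> assumption

theorem kill {M t n e e' : ℕ} {b : ℕ → ℕ} (hId : Identity M (t + 4) b)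
    (hA : A (a M) (t + 4) M n ≤ 1) (hn : e + e' = n) (hle : e' ≤ e) (he' : 1 ≤ e')
    (h1 : e ∉ C M (t + 4)) (h2 : e' ∉ C M (t + 4)) : ¬ Step b M e e' := by
  intro hstep
  have hmem := mem_BSet_two he' hle h1 h2 hstep hn
  have hAB := hId n (by omega)
  have hfin := finite_BSet b M (C M (t + 4)) n
  by_cases hc : n ∈ C M (t + 4)
  · have h3 := hc.2
    rw [hAB] at h3
    unfold B0 at h3
    rw [Set.ncard_eq_zero hfin] at h3
    rw [h3] at hmem
    exact hmem
  · have hmem1 := mem_BSet_one (b := b) (M := M) (n := n) (by omega) hc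
    have : 1 < (BSet b M (C M (t + 4)) n).ncard := by
      rw [Set.one_lt_ncard hfin]
      exact ⟨_, hmem1, _, hmem, by simp⟩
    unfold B0 at hAB
    omega

theorem notC {M t n : ℕ} {l : List ℕ} (hl : l ∈ ASet (a M) (t + 4) M n) : n ∉ C M (t + 4) := by
  intro h
  have h2 := h.2
  unfold A at h2
  rw [Set.ncard_eq_zero (finite_ASet _ _ _ _)] at h2
  rw [h2] at hl
  exact hl

theorem mem_A_one {M t k x n : ℕ} (hM : 22 * 2 ^ t < M) (hx : P t x) (hk : 1 ≤ k)
    (hn : n + x = k * M) : [n] ∈ ASet (a M) (t + 4) M n := by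
  have hle := P_le hx
  have h1 : M ≤ k * M := Nat.le_mul_of_pos_left M hk
  have hw : 1 ≤ 2 ^ t := Nat.one_le_two_pow
  rw [ASet_iff]
  refine ⟨by simp, ?_, by simp⟩
  intro e he
  simp only [List.mem_cons, List.not_mem_nil, or_false] at he
  subst he
  have h2 : 1 ≤ e := by omega
  exact ⟨h2, (col_iff hM h2).mpr ⟨k, x, hk, hx, hn⟩⟩

theorem mem_A_two {M t k1 k2 x1 x2 p q n : ℕ} (hM : 22 * 2 ^ t < M) (hx1 : P t x1) (hx2 : P t x2)
    (hk1 : 1 ≤ k1) (hk2 : 1 ≤ k2) (hp : p + x1 = k1 * M) (hq : q + x2 = k2 * M) (hlt : q < p)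
    (hn : p + q = n) : [p, q] ∈ ASet (a M) (t + 4) M n := by
  have hp1 := (ASet_iff.mp (mem_A_one hM hx1 hk1 hp)).2.1 p (by simp)
  have hq1 := (ASet_iff.mp (mem_A_one hM hx2 hk2 hq)).2.1 q (by simp)
  rw [ASet_iff]
  refine ⟨by simpa using hlt, ?_, by simpa using hn⟩
  intro e he
  simp only [List.mem_cons, List.not_mem_nil, or_false] at he
  rcases he with rfl | rfl
  · exact hp1
  · exact hq1

theorem mem_A_three {M t k1 k2 k3 x1 x2 x3 p q r n : ℕ} (hM : 22 * 2 ^ t < M)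
    (hx1 : P t x1) (hx2 : P t x2) (hx3 : P t x3)
    (hk1 : 1 ≤ k1) (hk2 : 1 ≤ k2) (hk3 : 1 ≤ k3) (hp : p + x1 = k1 * M) (hq : q + x2 = k2 * M)
    (hr : r + x3 = k3 * M) (hlt : q < p) (hlt2 : r < q)
    (hn : p + q + r = n) : [p, q, r] ∈ ASet (a M) (t + 4) M n := by
  have hp1 := (ASet_iff.mp (mem_A_one hM hx1 hk1 hp)).2.1 p (by simp)
  have hq1 := (ASet_iff.mp (mem_A_one hM hx2 hk2 hq)).2.1 q (by simp)
  have hr1 := (ASet_iff.mp (mem_A_one hM hx3 hk3 hr)).2.1 r (by simp)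
  rw [ASet_iff]
  refine ⟨?_, ?_, by simp; omega⟩
  · simp
    omega
  · intro e he
    simp only [List.mem_cons, List.not_mem_nil, or_false] at he
    rcases he with rfl | rfl | rfl
    · exact hp1
    · exact hq1
    · exact hr1

/-- shape of the parts outside `C` -/
def Shape (M t e q x : ℕ) : Prop :=
  1 ≤ q ∧ 1 ≤ x ∧ e + x = q * M ∧ x ≤ 4 * 2 ^ t * (q + 1) ∧ (q = 1 → P t x) ∧
    (q = 2 → P t x ∨ ∃ y z, P t y ∧ P t z ∧ y < z ∧ x = y + z)

theorem exists_shape {M t e : ℕ} (hM : 22 * 2 ^ t < M) (he : 1 ≤ e) (hC : e ∉ C M (t + 4)) :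
    ∃ q x, Shape M t e q x := by
  have hw : 1 ≤ 2 ^ t := Nat.one_le_two_pow
  have hne : (ASet (a M) (t + 4) M e).Nonempty := by
    rw [Set.nonempty_iff_ne_empty]
    intro h
    apply hC
    refine ⟨he, ?_⟩
    unfold A
    rw [h, Set.ncard_empty]
  obtain ⟨l, hl⟩ := hne
  rw [ASet_iff] at hl
  obtain ⟨h1, h2, h3⟩ := hl
  rcases l with _ | ⟨p, _ | ⟨q, l⟩⟩
  · simp at h3; omega
  · simp at h3
    subst h3
    have hp := h2 p (by simp)
    obtain ⟨k, x, hk, hx, hpx⟩ := (col_iff hM hp.1).mp hp.2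
    refine ⟨k, x, hk, P_pos hx, hpx, ?_, fun _ => hx, fun _ => Or.inl hx⟩
    have := P_le hx
    have := Nat.mul_le_mul_left (4 * 2 ^ t) (show 2 ≤ k + 1 by omega)
    omega
  · rcases l with _ | ⟨r, l⟩
    · have hp := h2 p (by simp)
      have hq := h2 q (by simp)
      obtain ⟨k1, x1, hk1, hx1, hpx1⟩ := (col_iff hM hp.1).mp hp.2
      obtain ⟨k2, x2, hk2, hx2, hpx2⟩ := (col_iff hM hq.1).mp hq.2
      simp only [List.sum_cons, List.sum_nil, add_zero] at h3
      have hlt : q < p := by simpa using h1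
      have hx1' := P_le hx1
      have hx2' := P_le hx2
      refine ⟨k1 + k2, x1 + x2, by omega, by have := P_pos hx1; omega, ?_, ?_, by omega, ?_⟩
      · rw [← h3, add_mul, ← hpx1, ← hpx2]; ring
      · exact bd_two hM hx1 hx2 hk1 hk2 hpx1 hpx2 hlt
      · intro hk
        have e1 : k1 = 1 := by omega
        have e2 : k2 = 1 := by omega
        subst e1 e2
        exact Or.inr ⟨x1, x2, hx1, hx2, by omega, rfl⟩
    · obtain ⟨Q, X, hQ, hlen, hX, hX1⟩ := col_list2 hM _ h1 h2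
      simp only [List.length_cons] at hlen hX1
      exact ⟨Q, X, by omega, by omega, by rw [← h3]; exact hQ, hX, by omega, by omega⟩

/-- two parts of level one are never adjacent -/
theorem no_level_one {M t p q x y : ℕ} {b : ℕ → ℕ} (hM : 22 * 2 ^ t < M)
    (hb : ∀ j, 1 ≤ j → j ≤ M → 1 ≤ b j) (hId : Identity M (t + 4) b)
    (hp : Shape M t p 1 x) (hq : Shape M t q 1 y)
    (hpC : p ∉ C M (t + 4)) (hqC : q ∉ C M (t + 4)) : ¬ Step b M p q := by
  intro hstep
  have hw : 1 ≤ 2 ^ t := Nat.one_le_two_pow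
  obtain ⟨_, _, h1, _, h2, _⟩ := hp
  obtain ⟨_, _, h3, _, h4, _⟩ := hq
  have h5 := h2 rfl
  have h6 := h4 rfl
  have h7 := step_lt (by omega) hb hstep
  have h8 := P_le h5
  have h9 := P_le h6
  refine kill hId (A_K1 (n := p + q) hM h5 h6 (by omega) (by omega)) rfl (by omega) (by omega)
    hpC hqC hstep


/-- a part with a successor has level at least two -/
theorem first_ge_two {M t p q k k' x x' : ℕ} {b : ℕ → ℕ} (hM : 22 * 2 ^ t < M)
    (hb : ∀ j, 1 ≤ j → j ≤ M → 1 ≤ b j) (hId : Identity M (t + 4) b)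
    (hp : Shape M t p k x) (hq : Shape M t q k' x')
    (hpC : p ∉ C M (t + 4)) (hqC : q ∉ C M (t + 4)) (hs : Step b M p q) : 2 ≤ k := by
  by_contra hc
  have hk : k = 1 := by have := hp.1; omega
  subst hk
  have hk' : k' = 1 := by
    by_contra hc'
    have h1 := hp.2.2.1
    have h2 := hp.2.1
    have h3 := hq.2.2.1
    have h4 := hq.2.2.2.1
    have h5 := hq.1
    have h6 := step_lt (by omega) hb hs
    obtain ⟨r, rfl⟩ : ∃ r, k' = 2 + r := ⟨k' - 2, by omega⟩
    have e1 : (2 + r) * M = 2 * M + r * M := by ring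
    have e2 : 4 * 2 ^ t * (2 + r + 1) = 12 * 2 ^ t + 4 * (r * 2 ^ t) := by ring
    have e3 : r * (22 * 2 ^ t) ≤ r * M := Nat.mul_le_mul_left _ hM.le
    have e4 : r * (22 * 2 ^ t) = 22 * (r * 2 ^ t) := by ring
    omega
  subst hk'
  exact no_level_one hM hb hId hp hq hpC hqC hs

/-- lists of parts outside `C` -/
theorem nc_list {M t : ℕ} {b : ℕ → ℕ} (hM : 22 * 2 ^ t < M)
    (hb : ∀ j, 1 ≤ j → j ≤ M → 1 ≤ b j) (hId : Identity M (t + 4) b) :
    ∀ l : List ℕ, (∀ e ∈ l, 1 ≤ e) → (∀ e ∈ l, e ∉ C M (t + 4)) → l.IsChain (Step b M) →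
      ∃ Q X, l.sum + X = Q * M ∧ l.length ≤ Q ∧ X ≤ 4 * 2 ^ t * (Q + l.length) ∧
        2 * l.length ≤ Q + 1 := by
  intro l
  induction l with
  | nil => intro _ _ _; exact ⟨0, 0, by simp, by simp, by simp, by simp⟩
  | cons p l ih =>
    intro h h' hc
    obtain ⟨Q, X, h1, h2, h3, h4⟩ := ih (fun e he => h e (List.mem_cons_of_mem _ he))
      (fun e he => h' e (List.mem_cons_of_mem _ he)) hc.of_cons
    obtain ⟨q, x, s1⟩ := exists_shape hM (h p List.mem_cons_self) (h' p List.mem_cons_self)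
    have g1 := s1.1
    have g3 := s1.2.2.1
    have g4 := s1.2.2.2.1
    refine ⟨q + Q, x + X, ?_, ?_, ?_, ?_⟩
    · simp only [List.sum_cons]
      calc p + l.sum + (x + X) = (p + x) + (l.sum + X) := by ring
        _ = (q + Q) * M := by rw [g3, h1]; ring
    · simp only [List.length_cons]; omega
    · simp only [List.length_cons]
      calc x + X ≤ 4 * 2 ^ t * (q + 1) + 4 * 2 ^ t * (Q + l.length) := by omega
        _ = 4 * 2 ^ t * (q + Q + (l.length + 1)) := by ring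
    · rcases l with _ | ⟨p', l⟩
      · simp only [List.length_cons, List.length_nil]; omega
      · have hp' := h p' (by simp)
        have hC' := h' p' (by simp)
        obtain ⟨q', x', s2⟩ := exists_shape hM hp' hC'
        rw [List.isChain_cons_cons] at hc
        have := first_ge_two hM hb hId s1 s2 (h' p List.mem_cons_self) hC' hc.1
        simp only [List.length_cons] at h4 ⊢
        omega

theorem level_eqB {M w K q T τ L : ℕ} (hM : 22 * w < M) (hw : 1 ≤ w)
    (h : q * M + T = K * M + τ) (hτ : τ ≤ 4 * w * (q + L)) (hL : 2 * L ≤ q + 1) (hT : T < M)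
    (hK : (K = 3 ∧ 2 * w ≤ T) ∨ (K = 4 ∧ 14 * w ≤ T)) : q = K ∧ τ = T := by
  rcases lt_trichotomy q K with h1 | h1 | h1
  · exfalso
    obtain ⟨r, rfl⟩ := Nat.exists_eq_add_of_lt h1
    have e1 : (q + r + 1) * M = q * M + r * M + M := by ring
    have e2 : 0 ≤ r * M := Nat.zero_le _
    omega
  · subst h1; exact ⟨rfl, by omega⟩
  · exfalso
    obtain ⟨r, rfl⟩ := Nat.exists_eq_add_of_lt h1
    have e1 : (K + r + 1) * M = K * M + r * M + M := by ring
    have e2 : 22 * w * r ≤ r * M := by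
      rw [mul_comm r M]; exact Nat.mul_le_mul_right _ hM.le
    have e4 : 22 * w * r = 22 * (w * r) := by ring
    rcases hK with ⟨rfl, hT2⟩ | ⟨rfl, hT2⟩
    · rcases Nat.eq_zero_or_pos r with hr | hr
      · subst hr
        have e5 : 4 * w * (3 + 0 + 1 + L) ≤ 4 * w * 6 := Nat.mul_le_mul_left _ (by omega)
        omega
      · have e5 : 2 * (4 * w * (3 + r + 1 + L)) ≤ 4 * w * (3 * r + 13) := by
          calc 2 * (4 * w * (3 + r + 1 + L)) = 4 * w * (2 * (3 + r + 1 + L)) := by ring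
            _ ≤ 4 * w * (3 * r + 13) := Nat.mul_le_mul_left _ (by omega)
        have e6 : 4 * w * (3 * r + 13) = 12 * (w * r) + 52 * w := by ring
        have e7 : w * 1 ≤ w * r := Nat.mul_le_mul_left _ hr
        omega
    · have e5 : 2 * (4 * w * (4 + r + 1 + L)) ≤ 4 * w * (3 * r + 16) := by
        calc 2 * (4 * w * (4 + r + 1 + L)) = 4 * w * (2 * (4 + r + 1 + L)) := by ring
          _ ≤ 4 * w * (3 * r + 16) := Nat.mul_le_mul_left _ (by omega)
      have e6 : 4 * w * (3 * r + 16) = 12 * (w * r) + 64 * w := by ring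
      omega

theorem B_len {M t K T n : ℕ} {b : ℕ → ℕ} (hM : 22 * 2 ^ t < M)
    (hb : ∀ j, 1 ≤ j → j ≤ M → 1 ≤ b j) (hId : Identity M (t + 4) b) {l : List ℕ}
    (hl : l ∈ BSet b M (C M (t + 4)) n) (hn : n + T = K * M) (hT : T < M)
    (hK : (K = 3 ∧ 2 * 2 ^ t ≤ T) ∨ (K = 4 ∧ 14 * 2 ^ t ≤ T)) : l.length ≤ K := by
  obtain ⟨⟨_, h2, h3⟩, h4, h5⟩ := hl
  obtain ⟨Q, X, hQ, hlen, hX, hL⟩ := nc_list hM hb hId l h2 h4 h5
  have := level_eqB (K := K) (q := Q) (T := T) (τ := X) hM Nat.one_le_two_pow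
    (by rw [← hn, ← h3, ← hQ]; ring) hX hL hT hK
  omega

theorem B_two {M t K T n p q : ℕ} {b : ℕ → ℕ} (hM : 22 * 2 ^ t < M)
    (hb : ∀ j, 1 ≤ j → j ≤ M → 1 ≤ b j) (hId : Identity M (t + 4) b)
    (hl : [p, q] ∈ BSet b M (C M (t + 4)) n) (hn : n + T = K * M) (hT : T < M)
    (hK : (K = 3 ∧ 2 * 2 ^ t ≤ T) ∨ (K = 4 ∧ 14 * 2 ^ t ≤ T)) :
    ∃ k1 k2 x1 x2, k1 + k2 = K ∧ x1 + x2 = T ∧ Shape M t p k1 x1 ∧ Shape M t q k2 x2 ∧
      Step b M p q ∧ p ∉ C M (t + 4) ∧ q ∉ C M (t + 4) := by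
  obtain ⟨⟨_, h2, h3⟩, h4, h5⟩ := hl
  have hpC := h4 p (by simp)
  have hqC := h4 q (by simp)
  obtain ⟨k1, x1, s1⟩ := exists_shape hM (h2 p (by simp)) hpC
  obtain ⟨k2, x2, s2⟩ := exists_shape hM (h2 q (by simp)) hqC
  simp only [List.sum_cons, List.sum_nil, add_zero] at h3
  subst h3
  have e1 := s1.2.2.1
  have e2 := s2.2.2.1
  have e3 := s1.2.2.2.1
  have e4 := s2.2.2.2.1
  have hstep : Step b M p q := by simpa using h5
  have f1 := first_ge_two hM hb hId s1 s2 hpC hqC hstep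
  have f2 := s2.1
  obtain ⟨g1, g2⟩ := level_eqB (K := K) (q := k1 + k2) (T := T) (τ := x1 + x2) (L := 2) hM
    Nat.one_le_two_pow (by rw [← hn, add_mul, ← e1, ← e2]; ring)
    (by
      have : 4 * 2 ^ t * (k1 + k2 + 2) = 4 * 2 ^ t * (k1 + 1) + 4 * 2 ^ t * (k2 + 1) := by ring
      omega) (by omega) hT hK
  exact ⟨k1, k2, x1, x2, g1, g2, s1, s2, by simpa using h5, hpC, hqC⟩

theorem B_three {M t K T n p q r : ℕ} {b : ℕ → ℕ} (hM : 22 * 2 ^ t < M)
    (hb : ∀ j, 1 ≤ j → j ≤ M → 1 ≤ b j) (hId : Identity M (t + 4) b)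
    (hl : [p, q, r] ∈ BSet b M (C M (t + 4)) n) (hn : n + T = K * M) (hT : T < M)
    (hK : (K = 3 ∧ 2 * 2 ^ t ≤ T) ∨ (K = 4 ∧ 14 * 2 ^ t ≤ T)) :
    ∃ k1 k2 k3 x1 x2 x3, k1 + k2 + k3 = K ∧ x1 + x2 + x3 = T ∧ Shape M t p k1 x1 ∧
      Shape M t q k2 x2 ∧ Shape M t r k3 x3 ∧ Step b M p q ∧ Step b M q r ∧
      p ∉ C M (t + 4) ∧ q ∉ C M (t + 4) ∧ r ∉ C M (t + 4) := by
  obtain ⟨⟨_, h2, h3⟩, h4, h5⟩ := hl
  have hpC := h4 p (by simp)
  have hqC := h4 q (by simp)
  have hrC := h4 r (by simp)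
  obtain ⟨k1, x1, s1⟩ := exists_shape hM (h2 p (by simp)) hpC
  obtain ⟨k2, x2, s2⟩ := exists_shape hM (h2 q (by simp)) hqC
  obtain ⟨k3, x3, s3⟩ := exists_shape hM (h2 r (by simp)) hrC
  simp only [List.sum_cons, List.sum_nil, add_zero] at h3
  subst h3
  have e1 := s1.2.2.1
  have e2 := s2.2.2.1
  have e3 := s3.2.2.1
  have e4 := s1.2.2.2.1
  have e5 := s2.2.2.2.1
  have e6 := s3.2.2.2.1
  simp only [List.isChain_cons_cons, List.isChain_singleton, and_true] at h5
  have f1 := first_ge_two hM hb hId s1 s2 hpC hqC h5.1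
  have f2 := first_ge_two hM hb hId s2 s3 hqC hrC h5.2
  have f3 := s3.1
  obtain ⟨g1, g2⟩ := level_eqB (K := K) (q := k1 + k2 + k3) (T := T) (τ := x1 + x2 + x3)
    (L := 3) hM Nat.one_le_two_pow
    (by rw [← hn, add_mul, add_mul, ← e1, ← e2, ← e3]; ring)
    (by
      have : 4 * 2 ^ t * (k1 + k2 + k3 + 3) = 4 * 2 ^ t * (k1 + 1) + 4 * 2 ^ t * (k2 + 1) +
        4 * 2 ^ t * (k3 + 1) := by ring
      omega) (by omega) hT hK
  exact ⟨k1, k2, k3, x1, x2, x3, g1, g2, s1, s2, s3, h5.1, h5.2, hpC, hqC, hrC⟩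

theorem B_four {M t K T n p q r s : ℕ} {b : ℕ → ℕ} (hM : 22 * 2 ^ t < M)
    (hb : ∀ j, 1 ≤ j → j ≤ M → 1 ≤ b j) (hId : Identity M (t + 4) b)
    (hl : [p, q, r, s] ∈ BSet b M (C M (t + 4)) n) (hn : n + T = K * M) (hT : T < M)
    (hK : (K = 3 ∧ 2 * 2 ^ t ≤ T) ∨ (K = 4 ∧ 14 * 2 ^ t ≤ T)) :
    ∃ k1 k2 k3 k4 x1 x2 x3 x4, k1 + k2 + k3 + k4 = K ∧ x1 + x2 + x3 + x4 = T ∧
      Shape M t p k1 x1 ∧ Shape M t q k2 x2 ∧ Shape M t r k3 x3 ∧ Shape M t s k4 x4 ∧
      Step b M p q ∧ p ∉ C M (t + 4) ∧ q ∉ C M (t + 4) := by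
  obtain ⟨⟨_, h2, h3⟩, h4, h5⟩ := hl
  have hpC := h4 p (by simp)
  have hqC := h4 q (by simp)
  have hrC := h4 r (by simp)
  have hsC := h4 s (by simp)
  obtain ⟨k1, x1, s1⟩ := exists_shape hM (h2 p (by simp)) hpC
  obtain ⟨k2, x2, s2⟩ := exists_shape hM (h2 q (by simp)) hqC
  obtain ⟨k3, x3, s3⟩ := exists_shape hM (h2 r (by simp)) hrC
  obtain ⟨k4, x4, s4⟩ := exists_shape hM (h2 s (by simp)) hsC
  simp only [List.sum_cons, List.sum_nil, add_zero] at h3
  subst h3
  have e1 := s1.2.2.1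
  have e2 := s2.2.2.1
  have e3 := s3.2.2.1
  have e7 := s4.2.2.1
  have e4 := s1.2.2.2.1
  have e5 := s2.2.2.2.1
  have e6 := s3.2.2.2.1
  have e8 := s4.2.2.2.1
  simp only [List.isChain_cons_cons, List.isChain_singleton, and_true] at h5
  have f1 := first_ge_two hM hb hId s1 s2 hpC hqC h5.1
  have f2 := first_ge_two hM hb hId s2 s3 hqC hrC h5.2.1
  have f3 := first_ge_two hM hb hId s3 s4 hrC hsC h5.2.2
  have f4 := s4.1
  obtain ⟨g1, g2⟩ := level_eqB (K := K) (q := k1 + k2 + k3 + k4) (T := T)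
    (τ := x1 + x2 + x3 + x4) (L := 4) hM Nat.one_le_two_pow
    (by rw [← hn, add_mul, add_mul, add_mul, ← e1, ← e2, ← e3, ← e7]; ring)
    (by
      have : 4 * 2 ^ t * (k1 + k2 + k3 + k4 + 4) = 4 * 2 ^ t * (k1 + 1) + 4 * 2 ^ t * (k2 + 1) +
        4 * 2 ^ t * (k3 + 1) + 4 * 2 ^ t * (k4 + 1) := by ring
      omega) (by omega) hT hK
  exact ⟨k1, k2, k3, k4, x1, x2, x3, x4, g1, g2, s1, s2, s3, s4, h5.1, hpC, hqC⟩

/-- the part `M - 8w` -/
theorem notC_8w {M t k q : ℕ} (hM : 22 * 2 ^ t < M) (hk : 1 ≤ k)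
    (hq : q + 8 * 2 ^ t = k * M) : q ∉ C M (t + 4) :=
  notC (mem_A_one hM (P_8w t) hk hq)

theorem modEq_of_level {M e f x k k' : ℕ} (he : e + x = k * M) (hf : f + x = k' * M) :
    e ≡ f [MOD M] := by
  have h1 : e + x ≡ 0 [MOD M] := by rw [he]; simp [Nat.ModEq]
  have h2 : f + x ≡ 0 [MOD M] := by rw [hf]; simp [Nat.ModEq]
  exact Nat.ModEq.add_right_cancel' x (h1.trans h2.symm)

/-- kill of a level-two part with non-power offset -/
theorem kill_two {M t p x : ℕ} {b : ℕ → ℕ} (hM : 22 * 2 ^ t < M)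
    (hId : Identity M (t + 4) b) (hp : p + x = 2 * M) (hx0 : 1 ≤ x)
    (hx8 : x < 8 * 2 ^ t) (hx : ¬ P t x) (hpC : p ∉ C M (t + 4)) :
    ¬ Step b M p (M - 8 * 2 ^ t) := by
  have hw : 1 ≤ 2 ^ t := Nat.one_le_two_pow
  refine kill hId (A_K3 (n := p + (M - 8 * 2 ^ t)) hM hx hx8 hx0 (by omega)) rfl (by omega)
    (by omega) hpC (notC_8w (k := 1) hM le_rfl (by omega))

theorem kill_three {M t p x : ℕ} {b : ℕ → ℕ} (hM : 22 * 2 ^ t < M)
    (hId : Identity M (t + 4) b) (hp : p + x = 3 * M) (hx0 : 8 * 2 ^ t < x)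
    (hx8 : x < 14 * 2 ^ t) (hpC : p ∉ C M (t + 4)) :
    ¬ Step b M p (M - 8 * 2 ^ t) := by
  have hw : 1 ≤ 2 ^ t := Nat.one_le_two_pow
  refine kill hId (A_K4 (n := p + (M - 8 * 2 ^ t)) (T := x + 8 * 2 ^ t) hM (by omega) (by omega)
    (by omega)) rfl (by omega)
    (by omega) hpC (notC_8w (k := 1) hM le_rfl (by omega))

/-- Step 1: `(2M - v) + (M - v)` is allowed. -/
theorem allowed {M t v : ℕ} {b : ℕ → ℕ} (hM : 22 * 2 ^ t < M)
    (hb : ∀ j, 1 ≤ j → j ≤ M → 1 ≤ b j) (hId : Identity M (t + 4) b)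
    (hv : P t v) (hv2 : P t (2 * v)) (hvw : 2 ^ t ≤ v) : Step b M (2 * M - v) (M - v) := by
  by_contra hno
  have hw : 1 ≤ 2 ^ t := Nat.one_le_two_pow
  have hv' := P_le hv2
  have hv0 := P_pos hv
  set n := 3 * M - 2 * v with hn
  have hn' : n + 2 * v = 3 * M := by omega
  have hB : BSet b M (C M (t + 4)) n ⊆ {[n]} := by
    intro l hl
    have hlen := B_len (K := 3) (T := 2 * v) hM hb hId hl hn' (by omega) (by omega)
    rcases l with _ | ⟨p, _ | ⟨q, _ | ⟨r, _ | ⟨s, l⟩⟩⟩⟩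
    · exfalso
      have := hl.1.2.2
      simp at this
      omega
    · have := hl.1.2.2
      simp at this
      simp [this]
    · exfalso
      obtain ⟨k1, k2, x1, x2, h1, h2, h3, h4, h5, h6, h7⟩ :=
        B_two (K := 3) (T := 2 * v) hM hb hId hl hn' (by omega) (by omega)
      have hlt := step_lt (by omega) hb h5
      obtain ⟨a1, a2, a3, a4, a5, a6⟩ := h3
      obtain ⟨c1, c2, c3, c4, c5, c6⟩ := h4
      have hk : (k1 = 2 ∧ k2 = 1) ∨ (k1 = 1 ∧ k2 = 2) := by omega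
      rcases hk with ⟨e1, e2⟩ | ⟨e1, e2⟩
      · subst e1 e2
        have hx2 := c5 rfl
        have h8 := P_le hx2
        rcases P_tri hx2 hv with h9 | h9 | h9
        · apply hno
          subst h9
          have e3 : x1 = x2 := by omega
          subst e3
          have e4 : p = 2 * M - x1 := by omega
          have e5 : q = M - x1 := by omega
          rw [e4, e5] at h5
          exact h5
        · have hx1 : ¬ P t x1 := by
            intro h
            have := P_tri h hv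
            omega
          refine kill_two hM hId a3 a2 (by omega) hx1 h6 ?_
          exact step_mono h5 (Nat.ModEq.refl _) (by omega)
        · omega
      · subst e1 e2
        omega
    · exfalso
      obtain ⟨k1, k2, k3, x1, x2, x3, h1, h2, h3, h4, h5, h6, h7, h8, h9, h10⟩ :=
        B_three (K := 3) (T := 2 * v) hM hb hId hl hn' (by omega) (by omega)
      have a1 := h3.1
      have a2 := h4.1
      have a3 := h5.1
      have e1 : k1 = 1 := by omega
      have e2 : k2 = 1 := by omega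
      subst e1 e2
      exact no_level_one hM hb hId h3 h4 h8 h9 h6
    · exfalso
      simp only [List.length_cons] at hlen
      omega
  have hB1 : B0 b M (C M (t + 4)) n ≤ 1 := by
    unfold B0
    calc _ ≤ ({[n]} : Set (List ℕ)).ncard := Set.ncard_le_ncard hB (Set.finite_singleton _)
      _ = 1 := Set.ncard_singleton _
  have hA2 : 1 < A (a M) (t + 4) M n := by
    unfold A
    rw [Set.one_lt_ncard (finite_ASet _ _ _ _)]
    refine ⟨[n], mem_A_one (k := 3) hM hv2 (by omega) hn', [2 * M - v, M - v],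
      mem_A_two (k1 := 2) (k2 := 1) hM hv hv (by omega) (by omega) (by omega) (by omega)
        (by omega) (by omega), by simp⟩
  have := hId n (by omega)
  omega

theorem A_3v {M t n v : ℕ} (hM : 22 * 2 ^ t < M) (hv : P t v) (hv2 : P t (2 * v))
    (hn : n + 3 * v = 3 * M) : A (a M) (t + 4) M n ≤ 2 := by
  have hw : 1 ≤ 2 ^ t := Nat.one_le_two_pow
  have hv' := P_le hv2
  have hv0 := P_pos hv
  have key : ASet (a M) (t + 4) M n ⊆ {[2 * M - v, M - 2 * v], [2 * M - 2 * v, M - v]} := by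
    intro l hl
    have hlen := A_len (K := 3) (T := 3 * v) hM hl hn (by omega) (by omega)
    rcases l with _ | ⟨p, _ | ⟨q, _ | ⟨r, _ | ⟨s, l⟩⟩⟩⟩
    · exfalso
      rw [ASet_iff] at hl
      have := hl.2.2
      simp at this
      omega
    · exfalso
      obtain ⟨h1, h2⟩ := A_one (K := 3) (T := 3 * v) hM hl hn (by omega) (by omega)
      have h3 := P_tri h1 hv2
      omega
    · obtain ⟨k1, k2, x1, x2, h1, h2, h3, h4, h5, h6, h7, h8, h9⟩ :=
        A_two (K := 3) (T := 3 * v) hM hl hn (by omega) (by omega)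
      have g1 := P_tri h3 hv
      have g2 := P_tri h3 hv2
      have g3 := P_tri h4 hv
      have g4 := P_tri h4 hv2
      have g5 := P_le h3
      have g6 := P_le h4
      have hk : (k1 = 2 ∧ k2 = 1) ∨ (k1 = 1 ∧ k2 = 2) := by omega
      rcases hk with ⟨e1, e2⟩ | ⟨e1, e2⟩
      · subst e1 e2
        have hx : (x1 = v ∧ x2 = 2 * v) ∨ (x1 = 2 * v ∧ x2 = v) := by omega
        simp only [Set.mem_insert_iff, Set.mem_singleton_iff, List.cons.injEq, and_true]
        omega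
      · exfalso
        subst e1 e2
        omega
    · exfalso
      obtain ⟨k1, k2, k3, x1, x2, x3, h1, h2, h3, h4, h5, h6, h7, h8, h9, h10, h11, h12, h13⟩ :=
        A_three (K := 3) (T := 3 * v) hM hl hn (by omega) (by omega)
      have hk1 : k1 = 1 := by omega
      have hk2 : k2 = 1 := by omega
      have hk3 : k3 = 1 := by omega
      subst hk1 hk2 hk3
      have h14 := P_tri h3 h4
      have h15 := P_tri h4 h5
      have h16 := P_tri h5 hv
      have h17 := P_tri h5 hv2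
      have h18 := P_pos h3
      have h19 := P_tri h4 hv
      omega
    · exfalso
      simp only [List.length_cons] at hlen
      omega
  unfold A
  calc _ ≤ ({[2 * M - v, M - 2 * v], [2 * M - 2 * v, M - v]} : Set (List ℕ)).ncard :=
        Set.ncard_le_ncard key (by simp)
    _ ≤ 2 := by
        refine (Set.ncard_insert_le _ _).trans ?_
        rw [Set.ncard_singleton]

/-- Step 2: `(2M - 2v) + (M - v)` is not allowed. -/
theorem not_allowed {M t v : ℕ} {b : ℕ → ℕ} (hM : 22 * 2 ^ t < M)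
    (hb : ∀ j, 1 ≤ j → j ≤ M → 1 ≤ b j) (hId : Identity M (t + 4) b)
    (hv : P t v) (hv2 : P t (2 * v)) (hvw : 2 ^ t ≤ v) :
    ¬ Step b M (2 * M - 2 * v) (M - v) := by
  intro hstep
  have hw : 1 ≤ 2 ^ t := Nat.one_le_two_pow
  have hv' := P_le hv2
  have hv0 := P_pos hv
  have hal := allowed hM hb hId hv hv2 hvw
  have hal2 : Step b M (2 * M - v) (M - 2 * v) :=
    step_mono hal (Nat.ModEq.refl _) (by omega)
  set n := 3 * M - 3 * v with hn
  have hA := A_3v (n := n) hM hv hv2 (by omega)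
  have c1 : 2 * M - v ∉ C M (t + 4) := notC (mem_A_one (k := 2) hM hv (by omega) (by omega))
  have c2 : M - 2 * v ∉ C M (t + 4) := notC (mem_A_one (k := 1) hM hv2 (by omega) (by omega))
  have c3 : 2 * M - 2 * v ∉ C M (t + 4) := notC (mem_A_one (k := 2) hM hv2 (by omega) (by omega))
  have c4 : M - v ∉ C M (t + 4) := notC (mem_A_one (k := 1) hM hv (by omega) (by omega))
  have c5 : n ∉ C M (t + 4) := notC (mem_A_two (k1 := 2) (k2 := 1) (p := 2 * M - v)
    (q := M - 2 * v) hM hv hv2 (by omega) (by omega) (by omega) (by omega) (by omega) (by omega))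
  have m1 := mem_BSet_one (b := b) (M := M) (n := n) (by omega) c5
  have m2 := mem_BSet_two (n := n) (by omega) (by omega) c1 c2 hal2 (by omega)
  have m3 := mem_BSet_two (n := n) (by omega) (by omega) c3 c4 hstep (by omega)
  have hB : 2 < B0 b M (C M (t + 4)) n := by
    unfold B0
    rw [Set.two_lt_ncard (finite_BSet _ _ _ _)]
    refine ⟨_, m1, _, m2, _, m3, by simp, by simp, ?_⟩
    intro h
    simp only [List.cons.injEq, and_true] at h
    omega
  have := hId n (by omega)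
  omega

theorem no_identity {M t : ℕ} {b : ℕ → ℕ} (hM : 22 * 2 ^ t < M)
    (hb : ∀ j, 1 ≤ j → j ≤ M → 1 ≤ b j) : ¬ Identity M (t + 4) b := by
  intro hId
  have hw : 1 ≤ 2 ^ t := Nat.one_le_two_pow
  have Pw := P_w t
  have P2 := P_2w t
  have P4 := P_4w t
  have P8 := P_8w t
  have na1 := not_allowed hM hb hId Pw P2 le_rfl
  have na2 := not_allowed hM hb hId P2 (by have := P4; rw [show 4 * 2 ^ t = 2 * (2 * 2 ^ t) by ring] at this; exact this)
    (by omega)
  set n := 4 * M - 14 * 2 ^ t with hn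
  have hn' : n + 14 * 2 ^ t = 4 * M := by omega
  have hB : BSet b M (C M (t + 4)) n ⊆ {[n], [3 * M - 6 * 2 ^ t, M - 8 * 2 ^ t]} := by
    intro l hl
    have hlen := B_len (K := 4) (T := 14 * 2 ^ t) hM hb hId hl hn' (by omega) (by omega)
    rcases l with _ | ⟨p, _ | ⟨q, _ | ⟨r, _ | ⟨s, _ | ⟨s', l⟩⟩⟩⟩⟩
    · exfalso
      have := hl.1.2.2
      simp at this
      omega
    · have := hl.1.2.2
      simp at this
      simp [this]
    · obtain ⟨k1, k2, x1, x2, h1, h2, h3, h4, h5, h6, h7⟩ :=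
        B_two (K := 4) (T := 14 * 2 ^ t) hM hb hId hl hn' (by omega) (by omega)
      have hlt := step_lt (by omega) hb h5
      obtain ⟨a1, a2, a3, a4, a5, a6⟩ := h3
      obtain ⟨c1, c2, c3, c4, c5, c6⟩ := h4
      have hk : (k1 = 3 ∧ k2 = 1) ∨ (k1 = 2 ∧ k2 = 2) ∨ (k1 = 1 ∧ k2 = 3) := by omega
      rcases hk with ⟨e1, e2⟩ | ⟨e1, e2⟩ | ⟨e1, e2⟩
      · subst e1 e2
        have hx2 := c5 rfl
        have h8 := P_le hx2
        rcases P_tri hx2 P8 with h9 | h9 | h9
        · have e3 : p = 3 * M - 6 * 2 ^ t := by omega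
          have e4 : q = M - 8 * 2 ^ t := by omega
          simp [e3, e4]
        · exfalso
          refine kill_three hM hId a3 (by omega) (by omega) h6 ?_
          exact step_mono h5 (Nat.ModEq.refl _) (by omega)
        · omega
      · exfalso
        subst e1 e2
        have hx : x1 < x2 := by omega
        have hx1 : ∃ y, x1 = 6 * 2 ^ t - y ∧ (y = 0 ∨ y = 4 * 2 ^ t ∨ y = 2 * 2 ^ t ∨ y ≤ 2 ^ t) := by
          rcases c6 rfl with g | ⟨y, z, g1, g2, g3, g4⟩
          · have g1 := P_le g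
            have g2 := P_tri g P8
            exact ⟨0, by omega, Or.inl rfl⟩
          · have g5 := P_tri g2 P8
            have g6 := P_le g2
            have g7 := P_tri g1 g2
            have g8 := P_cases g1
            exact ⟨y, by omega, by omega⟩
        obtain ⟨y, hy1, hy2⟩ := hx1
        rcases (show y = 4 * 2 ^ t ∨ y = 2 * 2 ^ t ∨ y ≤ 2 ^ t by omega) with hy | hy | hy
        · apply na1
          have e3 : p = 2 * M - 2 * 2 ^ t := by omega
          rw [e3] at h5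
          exact step_mono h5 (Nat.ModEq.refl _) (by omega)
        · apply na2
          have e3 : p = 2 * M - 2 * (2 * 2 ^ t) := by omega
          rw [e3] at h5
          exact step_mono h5 (Nat.ModEq.refl _) (by omega)
        · have hx1 : ¬ P t x1 := by
            intro h
            have := P_tri h P4
            omega
          refine kill_two hM hId a3 a2 (by omega) hx1 h6 ?_
          exact step_mono h5 (Nat.ModEq.refl _) (by omega)
      · exfalso
        subst e1 e2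
        have := P_le (a5 rfl)
        omega
    · exfalso
      obtain ⟨k1, k2, k3, x1, x2, x3, h1, h2, h3, h4, h5, h6, h7, h8, h9, h10⟩ :=
        B_three (K := 4) (T := 14 * 2 ^ t) hM hb hId hl hn' (by omega) (by omega)
      have hlt1 := step_lt (by omega) hb h6
      have hlt2 := step_lt (by omega) hb h7
      have a1 := h3.1
      have a2 := h4.1
      have a3 := h5.1
      have hk : (k1 = 2 ∧ k2 = 1 ∧ k3 = 1) ∨ (k1 = 1 ∧ k2 = 2 ∧ k3 = 1) ∨
          (k1 = 1 ∧ k2 = 1 ∧ k3 = 2) := by omega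
      rcases hk with ⟨e1, e2, e3⟩ | ⟨e1, e2, e3⟩ | ⟨e1, e2, e3⟩
      · subst e1 e2 e3
        exact no_level_one hM hb hId h4 h5 h9 h10 h7
      · subst e1 e2 e3
        have g1 := h3.2.2.1
        have g2 := h4.2.2.1
        have g3 := h4.2.2.2.1
        omega
      · subst e1 e2 e3
        have g1 := h3.2.2.1
        have g2 := h5.2.2.1
        have g3 := h5.2.2.2.1
        omega
    · exfalso
      obtain ⟨k1, k2, k3, k4, x1, x2, x3, x4, h1, h2, h3, h4, h5, h6, h7, h8, h9⟩ :=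
        B_four (K := 4) (T := 14 * 2 ^ t) hM hb hId hl hn' (by omega) (by omega)
      have a1 := h3.1
      have a2 := h4.1
      have a3 := h5.1
      have a4 := h6.1
      have e1 : k1 = 1 := by omega
      have e2 : k2 = 1 := by omega
      subst e1 e2
      exact no_level_one hM hb hId h3 h4 h8 h9 h7
    · exfalso
      simp only [List.length_cons] at hlen
      omega
  have hB2 : B0 b M (C M (t + 4)) n ≤ 2 := by
    unfold B0
    calc _ ≤ ({[n], [3 * M - 6 * 2 ^ t, M - 8 * 2 ^ t]} : Set (List ℕ)).ncard :=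
          Set.ncard_le_ncard hB (by simp)
      _ ≤ 2 := by
          refine (Set.ncard_insert_le _ _).trans ?_
          rw [Set.ncard_singleton]
  have hA3 : 2 < A (a M) (t + 4) M n := by
    unfold A
    rw [Set.two_lt_ncard (finite_ASet _ _ _ _)]
    refine ⟨[2 * M - 8 * 2 ^ t, M - 2 * 2 ^ t, M - 4 * 2 ^ t],
      mem_A_three (k1 := 2) (k2 := 1) (k3 := 1) hM P8 P2 P4 (by omega) (by omega) (by omega)
        (by omega) (by omega) (by omega) (by omega) (by omega) (by omega),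
      [2 * M - 4 * 2 ^ t, M - 2 * 2 ^ t, M - 8 * 2 ^ t],
      mem_A_three (k1 := 2) (k2 := 1) (k3 := 1) hM P4 P2 P8 (by omega) (by omega) (by omega)
        (by omega) (by omega) (by omega) (by omega) (by omega) (by omega),
      [2 * M - 2 * 2 ^ t, M - 4 * 2 ^ t, M - 8 * 2 ^ t],
      mem_A_three (k1 := 2) (k2 := 1) (k3 := 1) hM P2 P4 P8 (by omega) (by omega) (by omega)
        (by omega) (by omega) (by omega) (by omega) (by omega) (by omega), ?_, ?_, ?_⟩
    all_goals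
      intro h
      simp only [List.cons.injEq, and_true] at h
      omega
  have := hId n (by omega)
  omega

theorem main (s M : ℕ) (hs : 4 ≤ s) (hM : 11 * 2 ^ (s - 3) < M) :
    ¬ ∃ b : ℕ → ℕ, (∀ j, 1 ≤ j → j ≤ M → 1 ≤ b j) ∧ Identity M s b := by
  obtain ⟨t, rfl⟩ := Nat.exists_eq_add_of_le hs
  rintro ⟨b, hb, hId⟩
  rw [add_comm] at hId
  refine no_identity (t := t) ?_ hb hId
  have h : 4 + t - 3 = t + 1 := by omega
  rw [h, pow_succ] at hM
  omega

end Pool.Agent.W2helper49.DC.C2
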